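import Pool.Agent.H37.CNS.Stmts

/-!
# Board `cns`, row PUB (helper51): pull back by `s ^ m = t`, with `b ≥ m` on `ram 1`
-/

set_option autoImplicit false

namespace Pool.CND

open Finset

theorem pub_thm (h1 : S_PU1) (h2 : S_PU2) (h3 : S_PU3) (h4 : S_PU4) (hLO2 : S_LO2)
    (hRAM : S_RAM) (hINJ : S_INJ) (hRMX : S_RMX) (hSLX : S_SLX) : S_PUB := by
  intro p k L G _ _ _ _ _ ρ t P c m hp hck hm hpm hco hcov hPt hcon
  have ht0 : t ≠ 0 := by
    intro h
    have htr := hcov.trans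
    rw [h] at htr
    exact htr isAlgebraic_zero
  -- the stabiliser
  let J : Subgroup G :=
    { carrier := {g | Fixes P (ρ g)}
      mul_mem' := by
        intro a b ha hb
        rw [Set.mem_ofPred_eq] at ha hb ⊢
        rw [map_mul]
        exact ha.mul hb
      one_mem' := by
        rw [Set.mem_ofPred_eq, map_one]
        exact Fixes.one
      inv_mem' := by
        intro a ha
        rw [Set.mem_ofPred_eq] at ha ⊢
        rw [map_inv]
        exact ha.inv }
  have hJ : ∀ g, g ∈ J ↔ g ∈ (⊤ : Subgroup G) ∧ Fixes P (ρ g) := by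
    intro g
    exact ⟨fun h => ⟨Subgroup.mem_top g, h⟩, fun h => h.2⟩
  obtain ⟨w, hw0, hwfix, hword⟩ := hRMX k L G P ρ ⊤ J hJ
  have hwt : w ∈ IntermediateField.adjoin k {t} :=
    (hcov.fixed w).1 fun g => hwfix g (Subgroup.mem_top g)
  have hle : IntermediateField.adjoin k {t} ≤ IntermediateField.adjoin k {t⁻¹} := by
    rw [IntermediateField.adjoin_simple_le_iff]
    have h5 := IntermediateField.inv_mem _ (IntermediateField.mem_adjoin_simple_self k t⁻¹)
    rwa [inv_inv] at h5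
  have he1 : 1 ≤ (P.ord t).natAbs := by omega
  have hdiv := (hSLX k L P t⁻¹ (P.ord t).natAbs he1 (inv_ne_zero ht0)
    (by rw [P.ord_inv ht0]; omega) w (hle hwt) hw0).1
  rw [hword, Int.natCast_dvd_natCast] at hdiv
  have hdiv2 : (P.ord t).natAbs ∣ Nat.card G := hdiv.trans (Subgroup.card_subgroup_dvd_card J)
  have hcop : IsCoprime (P.ord t) (m : ℤ) := by
    rw [Int.isCoprime_iff_nat_coprime, Int.natAbs_natCast]
    exact (Nat.Coprime.coprime_dvd_right hdiv2 hco).symm
  obtain ⟨L', fL', aL', j, s, P', hPB⟩ := h1 k L P t m hm ht0 hcop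
  have hact : ∀ g : G, ρ g t = t := fun g =>
    (hcov.fixed t).2 (IntermediateField.mem_adjoin_simple_self k t) g
  obtain ⟨ρ', hρ1, hρ2⟩ := h2 k L L' G P t m j s P' ρ hm ht0 hPB hact
  refine ⟨L', fL', aL', ρ', s, P', h3 k L L' G P t m j s P' ρ ρ' hm hcov hPB hρ1 hρ2, ?_,
    h4 p k L L' G P t m j s P' ρ ρ' c hp hck hm hpm hcov hcop hPB hρ1 hρ2 hcon, ?_⟩
  · rw [hPB.ord_s]
    exact hPt
  · intro g hg hg1
    have hm' : (1 : ℤ) ≤ m := by exact_mod_cast hm
    have hjinj : Function.Injective j := j.toRingHom.injective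
    have hj0 : ∀ z : L, j z = 0 ↔ z = 0 := fun z => map_eq_zero_iff j hjinj
    have hρ'1 : ρ' g = 1 → g = 1 := by
      intro h
      refine hcov.inj ?_
      rw [map_one]
      ext z
      have h5 := hρ1 g z
      rw [h] at h5
      exact (hjinj h5).symm
    rw [hRAM k L' G P' ρ' g 1 le_rfl] at hg
    have hg' : Fixes P' (ρ' g) := hg.1
    have hb1 : 1 ≤ P'.b (ρ' g) := by
      rcases hg.2 with h0 | h0
      · exact absurd (hρ'1 h0) hg1
      · exact_mod_cast h0
    have hne : ρ' g P'.pi ≠ P'.pi := by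
      intro h0
      exact hg1 (hρ'1 (hINJ k L' P' (ρ' g) P'.pi hg' P'.pi_ne P'.ord_pi h0))
    have hjpi : j P.pi ≠ 0 := fun h0 => P.pi_ne ((hj0 _).1 h0)
    have hord : P'.ord (j P.pi) = m := by rw [hPB.ord _ P.pi_ne, P.ord_pi, mul_one]
    have h5 := (hLO2 p k L' P' (ρ' g) P'.pi (P'.b (ρ' g)) hp hck hg' P'.pi_ne P'.ord_pi hb1 hne
      (by unfold Place.b; ring) (j P.pi) hjpi).1 (by
        rw [hord, Int.natCast_dvd_natCast]
        exact hpm)
    have hne2 : ρ g P.pi - P.pi ≠ 0 := by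
      intro h0
      apply h5.1
      rw [hρ1, sub_eq_zero.1 h0]
    have h6 : P'.ord (ρ' g (j P.pi) - j P.pi) = m * (P.b (ρ g) + 1) := by
      rw [hρ1, ← map_sub, hPB.ord _ hne2]
      unfold Place.b
      ring
    rw [h6, hord] at h5
    have h7 : P'.b (ρ' g) = m * P.b (ρ g) := by
      have h8 := h5.2
      linarith
    have h9 : 1 ≤ P.b (ρ g) := by
      by_contra hc
      rw [not_le] at hc
      have : (m : ℤ) * P.b (ρ g) ≤ m * 0 := mul_le_mul_of_nonneg_left (by omega) (by omega)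
      omega
    rw [h7]
    calc (m : ℤ) = m * 1 := by ring
      _ ≤ m * P.b (ρ g) := mul_le_mul_of_nonneg_left h9 (by omega)

end Pool.CND
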